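import Mathlib

/-!
The 2-complexity of a positive even integer `n` is the least number of copies of `2` in an
expression with value `n` built from copies of `2` with addition and multiplication only.

We show that `‖2^m (2^u + 2)^r‖₂ < m + (u + 1) r` for every `m ≥ 0` when
`u = 2, r ≥ 16`, or `u = 3, r ≥ 10`, or `u = 4, r ≥ 8`.
The smallest of these examples is `‖10^10‖₂ ≤ 39 < 40`.
-/

namespace Pool.Agent.Results.MP_5f25aa_nt.TwoComplexity

/-- Arithmetic expressions built from copies of the integer `2` using only addition and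
multiplication, with any parenthesisation. -/
inductive Expr2 : Type
  | two : Expr2
  | add : Expr2 → Expr2 → Expr2
  | mul : Expr2 → Expr2 → Expr2

/-- The value of an expression. -/
def Expr2.eval : Expr2 → ℕ
  | .two => 2
  | .add a b => a.eval + b.eval
  | .mul a b => a.eval * b.eval

/-- The number of copies of `2` in an expression. -/
def Expr2.count : Expr2 → ℕ
  | .two => 1
  | .add a b => a.count + b.count
  | .mul a b => a.count + b.count

/-- The 2-complexity of `n`: the least number of copies of `2` in an expression with value `n`. -/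
noncomputable def complexity2 (n : ℕ) : ℕ :=
  sInf {k : ℕ | ∃ e : Expr2, e.eval = n ∧ e.count = k}

/-- `n` has an expression with exactly `k` copies of `2`. -/
def Rep (n k : ℕ) : Prop := ∃ e : Expr2, e.eval = n ∧ e.count = k

lemma Rep.two : Rep 2 1 := ⟨.two, rfl, rfl⟩

lemma Rep.add {a b k l : ℕ} (h : Rep a k) (h' : Rep b l) : Rep (a + b) (k + l) := by
  obtain ⟨e, he, hk⟩ := h
  obtain ⟨f, hf, hl⟩ := h'
  exact ⟨.add e f, by simp [Expr2.eval, he, hf], by simp [Expr2.count, hk, hl]⟩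

lemma Rep.mul {a b k l : ℕ} (h : Rep a k) (h' : Rep b l) : Rep (a * b) (k + l) := by
  obtain ⟨e, he, hk⟩ := h
  obtain ⟨f, hf, hl⟩ := h'
  exact ⟨.mul e f, by simp [Expr2.eval, he, hf], by simp [Expr2.count, hk, hl]⟩

lemma Rep.pow_mul {a b k l : ℕ} (ha : Rep a k) (hb : Rep b l) (t : ℕ) :
    Rep (a ^ t * b) (t * k + l) := by
  induction t with
  | zero => simpa using hb
  | succ t ih =>
      have := ha.mul ih
      have e1 : a * (a ^ t * b) = a ^ (t + 1) * b := by ring
      have e2 : k + (t * k + l) = (t + 1) * k + l := by ring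
      rwa [e1, e2] at this

lemma complexity2_le {n k : ℕ} (h : Rep n k) : complexity2 n ≤ k := Nat.sInf_le h

/-- `2 * 5 ^ 10` can be written with `30` copies of `2`. -/
lemma rep_five : Rep (2 * 5 ^ 10) 30 := by
  have h2 := Rep.two
  have h := ((h2.mul (((h2.mul h2).add h2).mul (((h2.mul (h2.mul (h2.mul ((h2.mul (h2.mul
    (h2.mul (h2.mul (h2.mul (h2.mul h2)))))).add h2)))).add h2).mul ((h2.mul (((h2.mul
    h2).add h2).mul ((h2.mul (h2.mul (h2.mul (h2.mul (h2.mul (h2.mul h2)))))).add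
    h2))).add h2)))).add h2)
  norm_num at h ⊢
  exact h

/-- `2 * 3 ^ 16` can be written with `32` copies of `2`. -/
lemma rep_three : Rep (2 * 3 ^ 16) 32 := by
  have h2 := Rep.two
  have h := ((h2.mul (h2.mul (h2.mul (h2.mul (h2.mul (((h2.mul (h2.mul (h2.mul ((h2.mul
    (h2.mul h2)).add h2)))).add h2).mul ((h2.mul (h2.mul ((h2.mul (h2.mul ((h2.mul
    (h2.mul (h2.mul (h2.mul (h2.mul (h2.mul (h2.mul (h2.mul (h2.mul (h2.mul
    h2)))))))))).add h2))).add h2))).add h2))))))).add h2)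
  norm_num at h ⊢
  exact h

lemma rep_base (u : ℕ) (hu : 1 ≤ u) : Rep (2 ^ u + 2) (u + 1) := by
  obtain ⟨v, rfl⟩ : ∃ v, u = v + 1 := ⟨u - 1, by omega⟩
  have h := (Rep.two.pow_mul Rep.two v).add Rep.two
  have e1 : 2 ^ v * 2 + 2 = 2 ^ (v + 1) + 2 := by ring
  have e2 : v * 1 + 1 + 1 = v + 1 + 1 := by ring
  rwa [e1, e2] at h

/-- If `(2 ^ u + 2) ^ r₀` can be written with fewer than `(u + 1) * r₀` copies of `2`, then the
same saving is available for all larger exponents and all `m`. -/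
lemma propagate {u r₀ k : ℕ} (hu : 1 ≤ u) (h : Rep ((2 ^ u + 2) ^ r₀) k)
    (hk : k < (u + 1) * r₀) {r : ℕ} (hr : r₀ ≤ r) (m : ℕ) :
    complexity2 (2 ^ m * (2 ^ u + 2) ^ r) < m + (u + 1) * r := by
  obtain ⟨t, rfl⟩ := Nat.exists_eq_add_of_le hr
  have h1 := Rep.two.pow_mul ((rep_base u hu).pow_mul h t) m
  have e1 : 2 ^ m * ((2 ^ u + 2) ^ t * (2 ^ u + 2) ^ r₀) = 2 ^ m * (2 ^ u + 2) ^ (r₀ + t) := by
    ring
  rw [e1] at h1
  refine lt_of_le_of_lt (complexity2_le h1) ?_
  nlinarith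

/-- For all `m`, and for `u = 2, r ≥ 16`, or `u = 3, r ≥ 10`, or `u = 4, r ≥ 8`, the 2-complexity
of `2 ^ m * (2 ^ u + 2) ^ r` is strictly smaller than `m + (u + 1) * r`. -/
theorem result (m u r : ℕ) (h : (u = 2 ∧ 16 ≤ r) ∨ (u = 3 ∧ 10 ≤ r) ∨ (u = 4 ∧ 8 ≤ r)) :
    complexity2 (2 ^ m * (2 ^ u + 2) ^ r) < m + (u + 1) * r := by
  rcases h with ⟨rfl, hr⟩ | ⟨rfl, hr⟩ | ⟨rfl, hr⟩
  · have h1 : Rep ((2 ^ 2 + 2) ^ 16) 47 := by
      have := Rep.two.pow_mul rep_three 15
      norm_num at this ⊢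
      exact this
    exact propagate (by norm_num) h1 (by norm_num) hr m
  · have h1 : Rep ((2 ^ 3 + 2) ^ 10) 39 := by
      have := Rep.two.pow_mul rep_five 9
      norm_num at this ⊢
      exact this
    exact propagate (by norm_num) h1 (by norm_num) hr m
  · have h1 : Rep ((2 ^ 4 + 2) ^ 8) 39 := by
      have := Rep.two.pow_mul rep_three 7
      norm_num at this ⊢
      exact this
    exact propagate (by norm_num) h1 (by norm_num) hr m

end Pool.Agent.Results.MP_5f25aa_nt.TwoComplexity
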